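import Pool.Agent.H315R2.EB.Stubs

/-!
TOP: a point with trivial stabiliser gives a faithful and discrete action.
-/

namespace Pool.Agent.H847R2.EB

open Pool.Agent.H315R2.EB

theorem TOP_proof : St_TOP := by
  intro G V _ Δ ρ v h
  refine ⟨?_, ?_⟩
  · rw [injective_iff_map_eq_one]
    intro g hg
    apply h g
    rw [hg]
    rfl
  · letI : TopologicalSpace V := ⊥
    haveI : DiscreteTopology V := ⟨rfl⟩
    letI τ1 : TopologicalSpace (autGroup Δ) := autTopology Δ
    letI τ2 : TopologicalSpace ρ.range := TopologicalSpace.induced Subtype.val (autTopology Δ)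
    rw [discreteTopology_iff_isOpen_singleton]
    rintro ⟨x, g, rfl⟩
    have hc : Continuous (fun f : V → V => f v) := continuous_apply v
    have hs : IsOpen ({(ρ g).1 v} : Set V) := isOpen_discrete _
    have hW : IsOpen {f : V → V | f v = (ρ g).1 v} := hs.preimage hc
    have hU : IsOpen {φ : autGroup Δ | φ.1 v = (ρ g).1 v} :=
      isOpen_induced_iff.2 ⟨_, hW, rfl⟩
    refine isOpen_induced_iff.2 ⟨_, hU, ?_⟩
    ext ⟨y, g', rfl⟩
    constructor
    · intro hy
      have hy' : (ρ g').1 v = (ρ g).1 v := hy
      have h1 : (ρ (g⁻¹ * g')).1 v = v := by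
        have h2 : (ρ (g⁻¹ * g')).1 = ((ρ g).1)⁻¹ * (ρ g').1 := by
          rw [map_mul, map_inv]
          rfl
        rw [h2, Equiv.Perm.mul_apply, hy']
        exact Equiv.symm_apply_apply _ _
      have h3 := h _ h1
      have h4 : g = g' := by
        have := congrArg (fun z => g * z) h3
        simpa using this.symm
      simp [h4]
    · intro hy
      have hy' : ρ g' = ρ g := by simpa using hy
      show (ρ g').1 v = (ρ g).1 v
      rw [hy']

end Pool.Agent.H847R2.EB
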